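import Pool.Agent.P.MP_5298e3_an.Main

open scoped ENNReal
open Pool.Agent.P.MP_5298e3_an

/-- For `1 < p < ∞` and real or complex scalars, the unitization of the completion `A` of the
finitely supported matrices for the unconditional norm is isomorphic as a Banach algebra to the
Calkin algebra of a Banach space `X`. -/
theorem Pool.Agent.Results.MP_5298e3_an.CalkinKu.result (𝕜 : Type) [RCLike 𝕜] (p : ℝ≥0∞)
    [Fact (1 ≤ p)] (hp : 1 < p) (hp' : p ≠ ∞) :
    ∃ (A : Type) (_ : NonUnitalNormedRing A) (_ : NormedSpace 𝕜 A) (_ : IsScalarTower 𝕜 A A)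
      (_ : SMulCommClass 𝕜 A A) (e : ℕ → ℕ → A), IsKu 𝕜 p A e ∧
      ∃ (X : Type) (_ : NormedAddCommGroup X) (_ : NormedSpace 𝕜 X) (_ : CompleteSpace X),
        BanachAlgIso 𝕜 (Calkin 𝕜 X) (WithLp 1 (Unitization 𝕜 A)) := by
  obtain ⟨A, _, _, _, _, e, hA⟩ := exists_Ku 𝕜 p
  obtain ⟨π, X, _, _, _, Z, _, _, _, SX, SZ, ρ, J, h⟩ := exists_setup (𝕜 := 𝕜) hp hp'
  obtain ⟨Φ, hΦ⟩ := h.calkin hA
  exact ⟨A, inferInstance, inferInstance, inferInstance, inferInstance, e, hA, Z, inferInstance,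
    inferInstance, inferInstance, Φ, 24, hΦ⟩
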